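import Mathlib

set_option autoImplicit false
set_option linter.unusedSectionVars false

open Filter Topology Set Uniformity

universe u v

namespace Pool.Agent.Results.MP_fcea8d_gt.RangeIndexed

/-- `r` is a retractional skeleton on `K`, indexed by the poset `Γ`. -/
structure IsRetractionalSkeleton {K : Type u} [TopologicalSpace K] {Γ : Type v} [PartialOrder Γ]
    (r : Γ → K → K) : Prop where
  nonempty : Nonempty Γ
  directed : ∀ s t : Γ, ∃ q : Γ, s ≤ q ∧ t ≤ q
  sup : ∀ s : ℕ → Γ, Monotone s → ∃ t, IsLUB (Set.range s) t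
  continuous : ∀ s, Continuous (r s)
  retraction : ∀ s x, r s (r s x) = r s x
  metrizable : ∀ s, TopologicalSpace.MetrizableSpace (Set.range (r s))
  comp : ∀ s t, s ≤ t → (∀ x, r s (r t x) = r s x) ∧ (∀ x, r t (r s x) = r s x)
  lim_seq : ∀ s : ℕ → Γ, Monotone s → ∀ t, IsLUB (Set.range s) t →
    ∀ x, Tendsto (fun n => r (s n) x) atTop (𝓝 (r t x))
  lim : ∀ x, Tendsto (fun s => r s x) atTop (𝓝 x)

/-- The set induced by a skeleton. -/
def inducedSet {K : Type u} {Γ : Type v} (r : Γ → K → K) : Set K := ⋃ s, Set.range (r s)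

section aux

variable {K : Type u} [UniformSpace K] [CompactSpace K] [T2Space K] {Γ : Type v} [PartialOrder Γ]
  {r : Γ → K → K}

theorem eq_of_seq (hr : IsRetractionalSkeleton r) {s : ℕ → Γ} (hs : Monotone s) {t : Γ}
    (ht : IsLUB (range s) t) {y z : K} (h : ∀ n, r (s n) y = r (s n) z) : r t y = r t z := by
  have h1 := hr.lim_seq s hs t ht y
  have h2 := hr.lim_seq s hs t ht z
  have h3 : (fun n => r (s n) y) = fun n => r (s n) z := funext h
  rw [h3] at h1
  exact tendsto_nhds_unique h1 h2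

theorem mem_range_iff (hr : IsRetractionalSkeleton r) (t : Γ) (x : K) :
    x ∈ range (r t) ↔ r t x = x := by
  constructor
  · rintro ⟨y, rfl⟩
    exact hr.retraction t y
  · intro h
    exact ⟨x, h⟩

theorem isClosed_range (hr : IsRetractionalSkeleton r) (t : Γ) : IsClosed (range (r t)) :=
  (isCompact_range (hr.continuous t)).isClosed

/-- uniform Cauchy property along finite subsets of `A`. -/
theorem cauchy (hr : IsRetractionalSkeleton r) (q : Finset Γ → Γ) (hq : Monotone q) (A : Set Γ)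
    (V : Set (K × K)) (hV : V ∈ 𝓤 K) :
    ∃ E : Finset Γ, (E : Set Γ) ⊆ A ∧ ∀ E' : Finset Γ, (E' : Set Γ) ⊆ A → E ⊆ E' →
      ∀ x, (r (q E') x, r (q E) x) ∈ V := by
  classical
  obtain ⟨W, ⟨hW, hWo⟩, hWV⟩ := uniformity_hasBasis_open.mem_iff.1 hV
  replace hWV : W ⊆ V := hWV
  by_contra hcon
  push Not at hcon
  choose! nx hnx1 hnx2 px hpx using hcon
  obtain ⟨e, hee0, hee⟩ : ∃ e : ℕ → Finset Γ, e 0 = ∅ ∧ ∀ n, e (n + 1) = nx (e n) :=
    ⟨fun n => Nat.rec ∅ (fun _ E => nx E) n, rfl, fun _ => rfl⟩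
  have he0 : ∀ n, (e n : Set Γ) ⊆ A := by
    intro n
    induction n with
    | zero => simp [hee0]
    | succ n ih => rw [hee]; exact hnx1 (e n) ih
  have he1 : ∀ n, e n ⊆ e (n + 1) := fun n => by rw [hee]; exact hnx2 (e n) (he0 n)
  have hem : Monotone e := monotone_nat_of_le_succ he1
  let s : ℕ → Γ := fun n => q (e n)
  have hs : Monotone s := fun a b hab => hq (hem hab)
  obtain ⟨t, ht⟩ := hr.sup s hs
  let x : ℕ → K := fun n => px (e n) (he0 n)
  have hx : ∀ n, (r (s (n + 1)) (x n), r (s n) (x n)) ∉ W := fun n hn => by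
    have h := hpx (e n) (he0 n)
    rw [← hee] at h
    exact h (hWV hn)
  let U : Ultrafilter ℕ := Ultrafilter.of atTop
  have hU : (U : Filter ℕ) ≤ atTop := Ultrafilter.of_le atTop
  obtain ⟨y, -, hy⟩ := isCompact_univ.ultrafilter_le_nhds (U.map (fun n => r (s (n + 1)) (x n)))
    (by simp)
  obtain ⟨z, -, hz⟩ := isCompact_univ.ultrafilter_le_nhds (U.map (fun n => r (s n) (x n)))
    (by simp)
  have hy' : Tendsto (fun n => r (s (n + 1)) (x n)) U (𝓝 y) := hy
  have hz' : Tendsto (fun n => r (s n) (x n)) U (𝓝 z) := hz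
  have hle : ∀ n, s n ≤ t := fun n => ht.1 (mem_range_self n)
  have hyt : r t y = y := by
    rw [← mem_range_iff hr]
    refine (isClosed_range hr t).mem_of_tendsto hy' (Eventually.of_forall fun n => ?_)
    rw [mem_range_iff hr]
    exact (hr.comp _ _ (hle (n + 1))).2 _
  have hzt : r t z = z := by
    rw [← mem_range_iff hr]
    refine (isClosed_range hr t).mem_of_tendsto hz' (Eventually.of_forall fun n => ?_)
    rw [mem_range_iff hr]
    exact (hr.comp _ _ (hle n)).2 _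
  have hyz : y = z := by
    rw [← hyt, ← hzt]
    refine eq_of_seq hr hs ht fun m => ?_
    have h1 : Tendsto (fun n => r (s m) (r (s (n + 1)) (x n))) U (𝓝 (r (s m) y)) :=
      ((hr.continuous (s m)).tendsto y).comp hy'
    have h2 : Tendsto (fun n => r (s m) (r (s n) (x n))) U (𝓝 (r (s m) z)) :=
      ((hr.continuous (s m)).tendsto z).comp hz'
    refine tendsto_nhds_unique_of_eventuallyEq h1 h2 ?_
    have : ∀ᶠ n in (U : Filter ℕ), m ≤ n := hU (eventually_ge_atTop m)
    filter_upwards [this] with n hn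
    rw [(hr.comp _ _ (hs (le_trans hn (Nat.le_succ n)))).1, (hr.comp _ _ (hs hn)).1]
  have h3 : Tendsto (fun n => (r (s (n + 1)) (x n), r (s n) (x n))) U (𝓝 (y, z)) :=
    hy'.prodMk_nhds hz'
  have h4 : (y, z) ∈ Wᶜ := by
    refine hWo.isClosed_compl.mem_of_tendsto h3 (Eventually.of_forall fun n => hx n)
  exact h4 (hyz ▸ refl_mem_uniformity hW)

/-- `f` is the uniform limit of `r (q E)`, `E` running over the finite subsets of `A`. -/
def IsLim (r : Γ → K → K) (q : Finset Γ → Γ) (A : Set Γ) (f : K → K) : Prop :=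
  ∀ V ∈ 𝓤 K, ∃ E : Finset Γ, (E : Set Γ) ⊆ A ∧ ∀ E' : Finset Γ, (E' : Set Γ) ⊆ A → E ⊆ E' →
    ∀ x, (f x, r (q E') x) ∈ V

/-- The finite subsets of `A`. -/
abbrev Fin' (A : Set Γ) : Type v := {E : Finset Γ // (E : Set Γ) ⊆ A}

instance instNonemptyFin' (A : Set Γ) : Nonempty (Fin' A) := ⟨⟨∅, by simp⟩⟩

instance instDirFin' (A : Set Γ) : IsDirectedOrder (Fin' A) := by
  classical
  exact ⟨fun E E' => ⟨⟨E.1 ∪ E'.1, by
    rw [Finset.coe_union]; exact union_subset E.2 E'.2⟩,
    show E.1 ≤ E.1 ∪ E'.1 from Finset.subset_union_left,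
    show E'.1 ≤ E.1 ∪ E'.1 from Finset.subset_union_right⟩⟩

theorem exists_isLim (hr : IsRetractionalSkeleton r) (q : Finset Γ → Γ) (hq : Monotone q)
    (A : Set Γ) : ∃ f : K → K, Continuous f ∧ IsLim r q A f := by
  classical
  let U : Ultrafilter (Fin' A) := Ultrafilter.of atTop
  have hU : (U : Filter (Fin' A)) ≤ atTop := Ultrafilter.of_le atTop
  have hex : ∀ x : K, ∃ y : K, Tendsto (fun E : Fin' A => r (q E.1) x) U (𝓝 y) := by
    intro x
    obtain ⟨y, -, hy⟩ := isCompact_univ.ultrafilter_le_nhds (U.map (fun E : Fin' A => r (q E.1) x))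
      (by simp)
    exact ⟨y, hy⟩
  choose f hf using hex
  have hlim : IsLim r q A f := by
    intro V hV
    obtain ⟨W, hW, hWc, hWs, hWV⟩ : ∃ W ∈ 𝓤 K, IsClosed W ∧ (∀ a b, (a, b) ∈ W → (b, a) ∈ W) ∧
        ∀ a b c, (a, b) ∈ W → (b, c) ∈ W → (a, c) ∈ V := by
      obtain ⟨W0, hW0, hs0, hc0⟩ := comp_symm_mem_uniformity_sets hV
      obtain ⟨W1, hW1, hc1, hs1, h10⟩ : ∃ W1 ∈ 𝓤 K, IsClosed W1 ∧
        (∀ a b, (a, b) ∈ W1 → (b, a) ∈ W1) ∧ W1 ⊆ W0 := by
        obtain ⟨W2, ⟨hW2, hW2c⟩, hW20⟩ := uniformity_hasBasis_closed.mem_iff.1 hW0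
        refine ⟨W2 ∩ Prod.swap ⁻¹' W2, inter_mem hW2 (symm_le_uniformity hW2),
          hW2c.inter (hW2c.preimage continuous_swap), ?_, ?_⟩
        · rintro a b ⟨h1, h2⟩
          exact ⟨h2, h1⟩
        · exact fun p hp => hW20 hp.1
      refine ⟨W1, hW1, hc1, hs1, fun a b c hab hbc => hc0 ?_⟩
      exact ⟨b, h10 hab, h10 hbc⟩
    obtain ⟨E, hEA, hE⟩ := cauchy hr q hq A W hW
    refine ⟨E, hEA, fun E' hE'A hEE' x => ?_⟩
    have h1 : (f x, r (q E) x) ∈ W := by
      refine hWc.mem_of_tendsto ((hf x).prodMk_nhds tendsto_const_nhds) ?_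
      have : ∀ᶠ E'' : Fin' A in (U : Filter (Fin' A)), (⟨E, hEA⟩ : Fin' A) ≤ E'' :=
        hU (eventually_ge_atTop _)
      filter_upwards [this] with E'' hE''
      exact hE E''.1 E''.2 hE'' x
    exact hWV _ _ _ h1 (hWs _ _ (hE E' hE'A hEE' x))
  refine ⟨f, ?_, hlim⟩
  refine continuous_of_uniform_approx_of_continuous fun V hV => ?_
  obtain ⟨E, hEA, hE⟩ := hlim V hV
  exact ⟨r (q E), hr.continuous _, fun y => hE E hEA (Finset.Subset.refl _) y⟩

theorem IsLim.tendsto {q : Finset Γ → Γ} {A : Set Γ} {f : K → K} (hf : IsLim r q A f) (x : K) :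
    Tendsto (fun E : Fin' A => r (q E.1) x) atTop (𝓝 (f x)) := by
  rw [Uniform.tendsto_nhds_right]
  intro V hV
  rw [Filter.mem_map]
  obtain ⟨E, hEA, hE⟩ := hf V hV
  have : ∀ᶠ E'' : Fin' A in atTop, (⟨E, hEA⟩ : Fin' A) ≤ E'' := eventually_ge_atTop _
  filter_upwards [this] with E'' hE''
  exact hE E''.1 E''.2 hE'' x

theorem IsLim.r_comp (hr : IsRetractionalSkeleton r) {q : Finset Γ → Γ} (hq : Monotone q)
    {A : Set Γ} {f : K → K} (hf : IsLim r q A f) {E : Finset Γ} (hE : (E : Set Γ) ⊆ A) (x : K) :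
    r (q E) (f x) = r (q E) x := by
  have h1 : Tendsto (fun E' : Fin' A => r (q E) (r (q E'.1) x)) atTop (𝓝 (r (q E) (f x))) :=
    ((hr.continuous (q E)).tendsto _).comp (hf.tendsto x)
  have h2 : Tendsto (fun _ : Fin' A => r (q E) x) atTop (𝓝 (r (q E) x)) := tendsto_const_nhds
  refine tendsto_nhds_unique_of_eventuallyEq h1 h2 ?_
  have : ∀ᶠ E'' : Fin' A in atTop, (⟨E, hE⟩ : Fin' A) ≤ E'' := eventually_ge_atTop _
  filter_upwards [this] with E'' hE''
  exact (hr.comp _ _ (hq hE'')).1 x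

theorem IsLim.comp_r (hr : IsRetractionalSkeleton r) {q : Finset Γ → Γ} (hq : Monotone q)
    {A : Set Γ} {f : K → K} (hf : IsLim r q A f) {E : Finset Γ} (hE : (E : Set Γ) ⊆ A) (x : K) :
    f (r (q E) x) = r (q E) x := by
  have h1 : Tendsto (fun E' : Fin' A => r (q E'.1) (r (q E) x)) atTop (𝓝 (f (r (q E) x))) :=
    hf.tendsto _
  have h2 : Tendsto (fun _ : Fin' A => r (q E) x) atTop (𝓝 (r (q E) x)) := tendsto_const_nhds
  refine tendsto_nhds_unique_of_eventuallyEq h1 h2 ?_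
  have : ∀ᶠ E'' : Fin' A in atTop, (⟨E, hE⟩ : Fin' A) ≤ E'' := eventually_ge_atTop _
  filter_upwards [this] with E'' hE''
  exact (hr.comp _ _ (hq hE'')).2 x

/-- The closed set attached to `A`. -/
def FF (r : Γ → K → K) (q : Finset Γ → Γ) (A : Set Γ) : Set K :=
  closure (⋃ E : Fin' A, range (r (q E.1)))

theorem FF_mono {q : Finset Γ → Γ} {A B : Set Γ} (h : A ⊆ B) : FF r q A ⊆ FF r q B := by
  refine closure_mono ?_
  refine iUnion_subset fun E => ?_
  exact subset_iUnion (fun E : Fin' B => range (r (q E.1))) ⟨E.1, E.2.trans h⟩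

theorem range_subset_FF {q : Finset Γ → Γ} {A : Set Γ} {E : Finset Γ} (hE : (E : Set Γ) ⊆ A) :
    range (r (q E)) ⊆ FF r q A :=
  (subset_iUnion (fun E : Fin' A => range (r (q E.1))) ⟨E, hE⟩).trans subset_closure

theorem IsLim.mem_FF {q : Finset Γ → Γ} {A : Set Γ} {f : K → K} (hf : IsLim r q A f) (x : K) :
    f x ∈ FF r q A := by
  refine mem_closure_of_tendsto (hf.tendsto x) (Eventually.of_forall fun E => ?_)
  exact mem_iUnion.2 ⟨E, mem_range_self x⟩

theorem IsLim.eq_self (hr : IsRetractionalSkeleton r) {q : Finset Γ → Γ} (hq : Monotone q)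
    {A : Set Γ} {f : K → K} (hf : IsLim r q A f) (hfc : Continuous f) {x : K}
    (hx : x ∈ FF r q A) : f x = x := by
  have hcl : IsClosed {x | f x = x} := isClosed_eq hfc continuous_id
  have : FF r q A ⊆ {x | f x = x} := by
    refine closure_minimal ?_ hcl
    refine iUnion_subset fun E => ?_
    rintro _ ⟨y, rfl⟩
    exact hf.comp_r hr hq E.2 y
  exact this hx

theorem IsLim.range_eq (hr : IsRetractionalSkeleton r) {q : Finset Γ → Γ} (hq : Monotone q)
    {A : Set Γ} {f : K → K} (hf : IsLim r q A f) (hfc : Continuous f) :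
    range f = FF r q A := by
  apply Subset.antisymm
  · rintro _ ⟨x, rfl⟩
    exact hf.mem_FF x
  · intro x hx
    exact ⟨x, hf.eq_self hr hq hfc hx⟩

theorem IsLim.comp_right (hr : IsRetractionalSkeleton r) {q : Finset Γ → Γ} (hq : Monotone q)
    {A A' : Set Γ} {f f' : K → K} (hf : IsLim r q A f) (hf' : IsLim r q A' f') (h : A ⊆ A')
    (x : K) : f (f' x) = f x := by
  refine tendsto_nhds_unique_of_eventuallyEq (hf.tendsto (f' x)) (hf.tendsto x) ?_
  refine Eventually.of_forall fun E => ?_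
  exact hf'.r_comp hr hq (E.2.trans h) x

theorem IsLim.comp_left (hr : IsRetractionalSkeleton r) {q : Finset Γ → Γ} (hq : Monotone q)
    {A A' : Set Γ} {f f' : K → K} (hf : IsLim r q A f) (hf' : IsLim r q A' f')
    (hfc' : Continuous f') (h : A ⊆ A') (x : K) : f' (f x) = f x :=
  hf'.eq_self hr hq hfc' (FF_mono h (hf.mem_FF x))

theorem IsLim.eq_of_eq {q : Finset Γ → Γ} {A : Set Γ} {f : K → K} (hf : IsLim r q A f) {x y : K}
    (h : ∀ E : Finset Γ, (E : Set Γ) ⊆ A → r (q E) x = r (q E) y) : f x = f y := by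
  refine tendsto_nhds_unique_of_eventuallyEq (hf.tendsto x) (hf.tendsto y) ?_
  exact Eventually.of_forall fun E => h E.1 E.2

theorem countable_Fin' {A : Set Γ} (hA : A.Countable) : Countable (Fin' A) := by
  classical
  have := hA.to_subtype
  let g : Finset A → Fin' A := fun E => ⟨E.map (Function.Embedding.subtype _), by
    intro x hx
    simp only [Finset.coe_map, Function.Embedding.subtype_apply, mem_image] at hx
    obtain ⟨y, -, rfl⟩ := hx
    exact y.2⟩
  have hg : Function.Surjective g := by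
    intro E
    refine ⟨E.1.subtype (· ∈ A), ?_⟩
    apply Subtype.ext
    show (E.1.subtype (· ∈ A)).map (Function.Embedding.subtype _) = E.1
    rw [Finset.subtype_map]
    exact Finset.filter_true_of_mem fun x hx => E.2 hx
  exact hg.countable

theorem IsLim.exists_eq (hr : IsRetractionalSkeleton r) {q : Finset Γ → Γ} (hq : Monotone q)
    {A : Set Γ} {f : K → K} (hf : IsLim r q A f) (hA : A.Countable) : ∃ t, f = r t := by
  have := countable_Fin' hA
  obtain ⟨e, hem, het⟩ := exists_seq_monotone_tendsto_atTop_atTop (Fin' A)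
  let s : ℕ → Γ := fun n => q (e n).1
  have hs : Monotone s := fun a b hab => hq (hem hab)
  obtain ⟨t, ht⟩ := hr.sup s hs
  refine ⟨t, funext fun x => ?_⟩
  exact tendsto_nhds_unique ((hf.tendsto x).comp het) (hr.lim_seq s hs t ht x)

theorem exists_subset_of_finset {A : ℕ → Set Γ} (hA : Monotone A) {E : Finset Γ}
    (hE : (E : Set Γ) ⊆ ⋃ n, A n) : ∃ n, (E : Set Γ) ⊆ A n :=
  (hA.directed_le).exists_mem_subset_of_finset_subset_biUnion hE

theorem IsLim.tendsto_seq {q : Finset Γ → Γ}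
    {A : ℕ → Set Γ} (hA : Monotone A) {f : ℕ → K → K} (hf : ∀ n, IsLim r q (A n) (f n))
    {g : K → K} (hg : IsLim r q (⋃ n, A n) g) (x : K) :
    Tendsto (fun n => f n x) atTop (𝓝 (g x)) := by
  rw [Uniform.tendsto_nhds_right]
  intro V hV
  rw [Filter.mem_map]
  obtain ⟨W, ⟨hW, hWc⟩, hWV⟩ := uniformity_hasBasis_closed.mem_iff.1 hV
  replace hWV : W ⊆ V := hWV
  obtain ⟨E, hEA, hE⟩ := hg W hW
  obtain ⟨n0, hn0⟩ := exists_subset_of_finset hA hEA
  have h1 : ∀ᶠ n in atTop, n0 ≤ n := eventually_ge_atTop n0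
  filter_upwards [h1] with n hn
  refine hWV (hWc.mem_of_tendsto (tendsto_const_nhds.prodMk_nhds ((hf n).tendsto x)) ?_)
  have : ∀ᶠ E'' : Fin' (A n) in atTop, (⟨E, hn0.trans (hA hn)⟩ : Fin' (A n)) ≤ E'' :=
    eventually_ge_atTop _
  filter_upwards [this] with E'' hE''
  exact hE E''.1 (E''.2.trans (subset_iUnion A n)) hE'' x

theorem FF_iUnion {q : Finset Γ → Γ} {A : ℕ → Set Γ} (hA : Monotone A) :
    FF r q (⋃ n, A n) = closure (⋃ n, FF r q (A n)) := by
  apply Subset.antisymm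
  · refine closure_minimal ?_ isClosed_closure
    refine iUnion_subset fun E => ?_
    obtain ⟨n, hn⟩ := exists_subset_of_finset hA E.2
    exact (range_subset_FF hn).trans ((subset_iUnion (fun n => FF r q (A n)) n).trans
      subset_closure)
  · refine closure_minimal ?_ isClosed_closure
    exact iUnion_subset fun n => FF_mono (subset_iUnion A n)

end aux

section main

theorem exists_monotone_ub {Γ : Type v} [PartialOrder Γ] (hne : Nonempty Γ)
    (hd : ∀ s t : Γ, ∃ q : Γ, s ≤ q ∧ t ≤ q) :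
    ∃ q : Finset Γ → Γ, Monotone q ∧ ∀ E : Finset Γ, ∀ s ∈ E, s ≤ q E := by
  classical
  have : IsDirectedOrder Γ := ⟨hd⟩
  choose ub hub using fun E : Finset Γ => Finset.exists_le E
  let H : (E : Finset Γ) → ((E' : Finset Γ) → E' ⊂ E → Γ) → Γ := fun E IH =>
    ub (E ∪ (E.ssubsets.attach.image (fun E' => IH E'.1 (Finset.mem_ssubsets.1 E'.2))))
  let q : Finset Γ → Γ := fun E => Finset.strongInduction (p := fun _ => Γ) H E
  have hqE : ∀ E, q E = ub (E ∪ (E.ssubsets.attach.image (fun E' => q E'.1))) := by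
    intro E
    exact Finset.strongInduction_eq (p := fun _ => Γ) H E
  refine ⟨q, ?_, ?_⟩
  · intro E' E hE
    rcases eq_or_ne E' E with rfl | hne'
    · exact le_rfl
    · have hss : E' ⊂ E := lt_of_le_of_ne hE hne'
      rw [hqE E]
      refine hub _ _ ?_
      refine Finset.mem_union_right _ ?_
      refine Finset.mem_image.2 ⟨⟨E', Finset.mem_ssubsets.2 hss⟩, Finset.mem_attach _ _, rfl⟩
  · intro E s hs
    rw [hqE E]
    exact hub _ _ (Finset.mem_union_left _ hs)

theorem exists_rec_set {Γ : Type v} (lt : Γ → Γ → Prop) (hwf : WellFounded lt)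
    (P : Γ → Set Γ → Prop) : ∃ I : Set Γ, ∀ s, s ∈ I ↔ P s (I ∩ {t | lt t s}) := by
  let I' : Γ → Prop := hwf.fix (C := fun _ => Prop) (fun s IH => P s {t | ∃ h : lt t s, IH t h})
  have hI' : ∀ s, I' s = P s {t | ∃ _ : lt t s, I' t} := fun s => hwf.fix_eq _ s
  refine ⟨{s | I' s}, fun s => ?_⟩
  have h1 : ({s | I' s} ∩ {t | lt t s}) = {t | ∃ _ : lt t s, I' t} := by
    ext t
    constructor
    · rintro ⟨h1, h2⟩
      exact ⟨h2, h1⟩
    · rintro ⟨h1, h2⟩
      exact ⟨h2, h1⟩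
  rw [h1]
  show I' s ↔ _
  rw [hI']

variable {K : Type u} [UniformSpace K] [CompactSpace K] [T2Space K] {Γ : Type v} [PartialOrder Γ]
  {r : Γ → K → K}

theorem exists_pmetric (hr : IsRetractionalSkeleton r) (t : Γ) :
    ∃ d : K → K → ℝ, Continuous (fun p : K × K => d p.1 p.2) ∧ (∀ x y, d x y = 0 → r t x = r t y) ∧
      (∀ x, d x x = 0) ∧ (∀ x y, d x y = d y x) ∧ (∀ x y z, d x z ≤ d x y + d y z) ∧
      (∀ x y, 0 ≤ d x y) := by
  have := hr.metrizable t
  let := TopologicalSpace.metrizableSpaceMetric (range (r t))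
  have hc : Continuous (fun x => (⟨r t x, mem_range_self x⟩ : range (r t))) :=
    (hr.continuous t).subtype_mk _
  refine ⟨fun x y => dist (⟨r t x, mem_range_self x⟩ : range (r t)) ⟨r t y, mem_range_self y⟩,
    ?_, ?_, ?_, ?_, ?_, ?_⟩
  · exact (hc.comp continuous_fst).dist (hc.comp continuous_snd)
  · intro x y h
    have := dist_eq_zero.1 h
    exact congrArg Subtype.val this
  · intro x
    exact dist_self _
  · intro x y
    exact dist_comm _ _
  · intro x y z
    exact dist_triangle _ _ _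
  · intro x y
    exact dist_nonneg

/-- Everything that is fixed during the construction. -/
structure Data (r : Γ → K → K) where
  hr : IsRetractionalSkeleton r
  q : Finset Γ → Γ
  hq : Monotone q
  hub : ∀ E : Finset Γ, ∀ s ∈ E, s ≤ q E
  rho : Set Γ → K → K
  rho_cont : ∀ A, Continuous (rho A)
  rho_lim : ∀ A, IsLim r q A (rho A)
  lt : Γ → Γ → Prop
  wf : WellFounded lt
  tri : ∀ a b, lt a b ∨ a = b ∨ lt b a
  I : Set Γ
  hI : ∀ s, s ∈ I ↔ ¬ range (r s) ⊆ FF r q (I ∩ {t | lt t s})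
  d : Γ → K → K → ℝ
  d_eq : ∀ t x y, d t x y = 0 → r t x = r t y
  d_comm : ∀ t x y, d t x y = d t y x
  d_tri : ∀ t x y z, d t x z ≤ d t x y + d t y z
  d_nonneg : ∀ t x y, 0 ≤ d t x y
  e : Γ → ℕ → Γ → Finset Γ
  he1 : ∀ t k b, (e t k b : Set Γ) ⊆ I ∩ {c | lt c b}
  he2 : ∀ t k b y, d t (rho (I ∩ {c | lt c b}) y) (r (q (e t k b)) y) < 1 / ((k : ℝ) + 1)

theorem exists_data (hr : IsRetractionalSkeleton r) : Nonempty (Data r) := by
  classical
  obtain ⟨q, hq, hub⟩ := exists_monotone_ub hr.nonempty hr.directed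
  choose rho rho_cont rho_lim using fun A => exists_isLim hr q hq A
  obtain ⟨I, hI⟩ := exists_rec_set (WellOrderingRel (α := Γ)) IsWellFounded.wf
    (fun s A => ¬ range (r s) ⊆ FF r q A)
  choose d d_cont d_eq d_self d_comm d_tri d_nonneg using fun t => exists_pmetric hr t
  have hex : ∀ (t : Γ) (k : ℕ) (b : Γ), ∃ E : Finset Γ,
      (E : Set Γ) ⊆ I ∩ {c | WellOrderingRel c b} ∧
      ∀ y, d t (rho (I ∩ {c | WellOrderingRel c b}) y) (r (q E) y) < 1 / ((k : ℝ) + 1) := by
    intro t k b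
    have hV : {p : K × K | d t p.1 p.2 < 1 / ((k : ℝ) + 1)} ∈ 𝓤 K := by
      rw [← nhdsSet_diagonal_eq_uniformity]
      have hop : IsOpen {p : K × K | d t p.1 p.2 < 1 / ((k : ℝ) + 1)} :=
        isOpen_lt (d_cont t) continuous_const
      rw [hop.mem_nhdsSet]
      rintro ⟨x, y⟩ hxy
      rw [mem_diagonal_iff] at hxy
      simp only at hxy
      subst hxy
      show d t x x < _
      rw [d_self]
      positivity
    obtain ⟨E, hE, hE2⟩ := rho_lim _ _ hV
    exact ⟨E, hE, fun y => hE2 E hE (Finset.Subset.refl _) y⟩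
  choose e he1 he2 using hex
  exact ⟨{ hr := hr, q := q, hq := hq, hub := hub, rho := rho, rho_cont := rho_cont
           rho_lim := rho_lim, lt := WellOrderingRel, wf := IsWellFounded.wf
           tri := fun a b => trichotomous_of WellOrderingRel a b
           I := I, hI := hI, d := d, d_eq := d_eq, d_comm := d_comm
           d_tri := d_tri, d_nonneg := d_nonneg, e := e, he1 := he1, he2 := he2 }⟩

namespace Data

variable (D : Data r)

/-- the range attached to `A` -/
def F (A : Set Γ) : Set K := FF r D.q A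

theorem F_mono {A B : Set Γ} (h : A ⊆ B) : D.F A ⊆ D.F B := FF_mono h

theorem r_subset_F {s : Γ} {A : Set Γ} (hs : s ∈ A) : range (r s) ⊆ D.F A := by
  have h1 : ((({s} : Finset Γ)) : Set Γ) ⊆ A := by simpa using hs
  refine Subset.trans ?_ (range_subset_FF h1)
  rintro _ ⟨x, rfl⟩
  have h2 : s ≤ D.q {s} := D.hub {s} s (Finset.mem_singleton_self s)
  exact ⟨r s x, (D.hr.comp _ _ h2).2 x⟩

/-- Good index sets. -/
def Good (B : Set Γ) : Prop :=
  B ⊆ D.I ∧ B.Countable ∧ ∀ b ∈ B, ∀ E : Finset Γ, (E : Set Γ) ⊆ B → ∀ k : ℕ,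
    (D.e (D.q E) k b : Set Γ) ⊆ B

theorem key {B : Set Γ} (hB : D.Good B) {b : Γ} (hb : b ∈ B) {x : K} (hx : x ∈ D.F B)
    (hx' : x ∈ D.F (D.I ∩ {c | D.lt c b})) : x ∈ D.F (B ∩ {c | D.lt c b}) := by
  set A' := B ∩ {c | D.lt c b} with hA'
  set A1 := D.I ∩ {c | D.lt c b} with hA1
  have hAB : A' ⊆ B := inter_subset_left
  have hAA : A' ⊆ A1 := inter_subset_inter_left _ hB.1
  set x' := D.rho A' x with hx'def
  have h0 : x' ∈ D.F A' := (D.rho_lim A').mem_FF x
  suffices h : x' = x by rw [← h]; exact h0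
  have hBx : D.rho B x = x := (D.rho_lim B).eq_self D.hr D.hq (D.rho_cont B) hx
  have hBx' : D.rho B x' = x' :=
    (D.rho_lim B).eq_self D.hr D.hq (D.rho_cont B) (D.F_mono hAB h0)
  have h1x : D.rho A1 x = x := (D.rho_lim A1).eq_self D.hr D.hq (D.rho_cont A1) hx'
  have h1x' : D.rho A1 x' = x' :=
    (D.rho_lim A1).eq_self D.hr D.hq (D.rho_cont A1) (D.F_mono hAA h0)
  rw [← hBx, ← hBx']
  refine (D.rho_lim B).eq_of_eq fun E hE => ?_
  apply D.d_eq
  refine le_antisymm ?_ (D.d_nonneg _ _ _)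
  refine le_of_forall_pos_le_add fun ε hε => ?_
  obtain ⟨k, hk⟩ := exists_nat_one_div_lt (half_pos hε)
  set s := D.e (D.q E) k b with hs
  have hsA : (s : Set Γ) ⊆ A' := fun c hc => ⟨hB.2.2 b hb E hE k hc, (D.he1 _ _ _ hc).2⟩
  have h2 : r (D.q s) x' = r (D.q s) x := (D.rho_lim A').r_comp D.hr D.hq hsA x
  have h3 := D.he2 (D.q E) k b x
  have h4 := D.he2 (D.q E) k b x'
  rw [← hA1, h1x, ← hs] at h3
  rw [← hA1, h1x', ← hs, h2] at h4
  have h5 := D.d_tri (D.q E) x' (r (D.q s) x) x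
  rw [D.d_comm (D.q E) (r (D.q s) x) x] at h5
  linarith

theorem decode {B : Set Γ} (hB : D.Good B) {s : Γ} (hs : s ∈ D.I) (h : range (r s) ⊆ D.F B) :
    s ∈ B := by
  by_contra hsB
  by_cases hex : ∃ b ∈ B, D.lt s b
  · obtain ⟨b, ⟨hb, hsb⟩, hmin⟩ := D.wf.has_min {b | b ∈ B ∧ D.lt s b} hex
    have h1 : range (r s) ⊆ D.F (D.I ∩ {c | D.lt c b}) := D.r_subset_F ⟨hs, hsb⟩
    have h2 : range (r s) ⊆ D.F (B ∩ {c | D.lt c b}) := fun x hx => D.key hB hb (h hx) (h1 hx)
    have h3 : B ∩ {c | D.lt c b} ⊆ D.I ∩ {c | D.lt c s} := by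
      rintro c ⟨hcB, hcb⟩
      refine ⟨hB.1 hcB, ?_⟩
      rcases D.tri c s with h | h | h
      · exact h
      · exact absurd (h ▸ hcB) hsB
      · exact absurd hcb (hmin c ⟨hcB, h⟩)
    exact (D.hI s).1 hs (h2.trans (D.F_mono h3))
  · push Not at hex
    have h3 : B ⊆ D.I ∩ {c | D.lt c s} := by
      intro c hcB
      refine ⟨hB.1 hcB, ?_⟩
      rcases D.tri c s with h | h | h
      · exact h
      · exact absurd (h ▸ hcB) hsB
      · exact absurd h (hex c hcB)
    exact (D.hI s).1 hs (h.trans (D.F_mono h3))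

theorem subset_of_F_subset {B B' : Set Γ} (hB : D.Good B) (hB' : D.Good B')
    (h : D.F B ⊆ D.F B') : B ⊆ B' := fun _ hs =>
  D.decode hB' (hB.1 hs) ((D.r_subset_F hs).trans h)

theorem good_iUnion {B : ℕ → Set Γ} (hB : ∀ n, D.Good (B n)) (hm : Monotone B) :
    D.Good (⋃ n, B n) := by
  refine ⟨iUnion_subset fun n => (hB n).1, countable_iUnion fun n => (hB n).2.1, ?_⟩
  intro b hb E hE k
  obtain ⟨m, hm'⟩ := mem_iUnion.1 hb
  obtain ⟨n, hn⟩ := exists_subset_of_finset hm hE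
  refine Subset.trans ?_ (subset_iUnion B (max m n))
  exact (hB _).2.2 b (hm (le_max_left m n) hm') E (hn.trans (hm (le_max_right m n))) k

theorem exists_good {C : Set Γ} (hC : C ⊆ D.I) (hCc : C.Countable) :
    ∃ B, D.Good B ∧ C ⊆ B := by
  classical
  let nx : Set Γ → Set Γ := fun B => B ∪ ⋃ b ∈ B, ⋃ E : Fin' B, ⋃ k : ℕ, (D.e (D.q E.1) k b : Set Γ)
  obtain ⟨B, hB0, hB1⟩ : ∃ B : ℕ → Set Γ, B 0 = C ∧ ∀ n, B (n + 1) = nx (B n) :=
    ⟨fun n => Nat.rec C (fun _ E => nx E) n, rfl, fun _ => rfl⟩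
  have hI : ∀ n, B n ⊆ D.I := by
    intro n
    induction n with
    | zero => rw [hB0]; exact hC
    | succ n ih =>
      rw [hB1]
      refine union_subset ih ?_
      refine iUnion₂_subset fun b _ => iUnion_subset fun E => iUnion_subset fun k => ?_
      exact fun c hc => (D.he1 _ _ _ hc).1
  have hc : ∀ n, (B n).Countable := by
    intro n
    induction n with
    | zero => rw [hB0]; exact hCc
    | succ n ih =>
      rw [hB1]
      refine ih.union ?_
      refine ih.biUnion fun b _ => ?_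
      have := countable_Fin' ih
      refine countable_iUnion fun E => countable_iUnion fun k => ?_
      exact (Finset.finite_toSet _).countable
  have hm : Monotone B := by
    refine monotone_nat_of_le_succ fun n => ?_
    rw [hB1]
    exact subset_union_left
  refine ⟨⋃ n, B n, ⟨iUnion_subset hI, countable_iUnion hc, ?_⟩, ?_⟩
  · intro b hb E hE k
    obtain ⟨m, hm'⟩ := mem_iUnion.1 hb
    obtain ⟨n, hn⟩ := exists_subset_of_finset hm hE
    refine Subset.trans ?_ (subset_iUnion B (max m n + 1))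
    rw [hB1]
    refine Subset.trans ?_ subset_union_right
    have h1 : b ∈ B (max m n) := hm (le_max_left m n) hm'
    have h2 : (E : Set Γ) ⊆ B (max m n) := hn.trans (hm (le_max_right m n))
    intro c hc
    refine mem_iUnion₂.2 ⟨b, h1, ?_⟩
    exact mem_iUnion.2 ⟨⟨E, h2⟩, mem_iUnion.2 ⟨k, hc⟩⟩
  · rw [← hB0]
    exact subset_iUnion B 0

theorem F_I : D.F D.I = univ := by
  have h1 : ∀ s, range (r s) ⊆ D.F D.I := by
    intro s
    by_cases hs : s ∈ D.I
    · exact D.r_subset_F hs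
    · rw [D.hI] at hs
      push Not at hs
      exact Subset.trans hs (D.F_mono inter_subset_left)
  rw [eq_univ_iff_forall]
  intro x
  have hcl : IsClosed (D.F D.I) := isClosed_closure
  have : Nonempty Γ := D.hr.nonempty
  have : IsDirectedOrder Γ := ⟨D.hr.directed⟩
  exact hcl.mem_of_tendsto (D.hr.lim x) (Eventually.of_forall fun s => h1 s (mem_range_self x))

theorem exists_eq {B : Set Γ} (hB : B.Countable) : ∃ t, D.rho B = r t :=
  (D.rho_lim B).exists_eq D.hr D.hq hB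

theorem range_rho (A : Set Γ) : range (D.rho A) = D.F A :=
  (D.rho_lim A).range_eq D.hr D.hq (D.rho_cont A)

theorem isClosed_F (A : Set Γ) : IsClosed (D.F A) := isClosed_closure

theorem step (t : Γ) {B : Set Γ} (hB : D.Good B) : ∃ (t' : Γ) (B' : Set Γ), t ≤ t' ∧ D.Good B' ∧
    B ⊆ B' ∧ D.F B' ⊆ range (r t') ∧ ∀ y, ∃ z ∈ D.F B', r t z = r t y := by
  classical
  have := D.hr.metrizable t
  let := TopologicalSpace.metrizableSpaceMetric (range (r t))
  have : CompactSpace (range (r t)) := isCompact_iff_compactSpace.1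
    (isCompact_range (D.hr.continuous t))
  let G : Set K := ⋃ E : Fin' D.I, range (r (D.q E.1))
  have hG : closure G = univ := D.F_I
  let S : Set (range (r t)) := {y | ∃ x ∈ G, r t x = y.1}
  have hS : ∀ y, y ∈ closure S := by
    intro y
    have hc : Continuous (fun x => (⟨r t x, mem_range_self x⟩ : range (r t))) :=
      (D.hr.continuous t).subtype_mk _
    have hy : y = ⟨r t y.1, mem_range_self _⟩ :=
      Subtype.ext ((mem_range_iff D.hr t y.1).1 y.2).symm
    rw [hy]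
    have hyG : y.1 ∈ closure G := by rw [hG]; trivial
    refine map_mem_closure hc hyG ?_
    intro x hx
    exact ⟨x, hx, rfl⟩
  obtain ⟨C, hCS, hCc, hSC⟩ :=
    (TopologicalSpace.IsSeparable.of_separableSpace S).exists_countable_dense_subset
  have hC : ∀ y, y ∈ closure C := fun y => by
    have h1 := closure_mono hSC (hS y)
    rwa [closure_closure] at h1
  have hch : ∀ c : C, ∃ E : Fin' D.I, ∃ x ∈ range (r (D.q E.1)), r t x = c.1.1 := by
    intro c
    obtain ⟨x, hxG, hx⟩ := hCS c.2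
    obtain ⟨E, hE⟩ := mem_iUnion.1 hxG
    exact ⟨E, x, hE, hx⟩
  choose Ec xc hxc hxc2 using hch
  have := hCc.to_subtype
  obtain ⟨B', hB', hBB'⟩ := D.exists_good (C := B ∪ ⋃ c : C, ((Ec c).1 : Set Γ))
    (union_subset hB.1 (iUnion_subset fun c => (Ec c).2))
    (hB.2.1.union (countable_iUnion fun c => (Finset.finite_toSet _).countable))
  obtain ⟨t'', ht''⟩ := D.exists_eq hB'.2.1
  obtain ⟨t', h1, h2⟩ := D.hr.directed t t''
  refine ⟨t', B', h1, hB', subset_union_left.trans hBB', ?_, ?_⟩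
  · rw [← D.range_rho, ht'']
    rintro _ ⟨x, rfl⟩
    exact ⟨r t'' x, (D.hr.comp _ _ h2).2 x⟩
  · intro y
    have hcl : IsClosed (r t '' (D.F B')) :=
      ((D.isClosed_F B').isCompact.image (D.hr.continuous t)).isClosed
    have hsub : C ⊆ Subtype.val ⁻¹' (r t '' (D.F B')) := by
      intro c hc
      refine ⟨xc ⟨c, hc⟩, ?_, hxc2 ⟨c, hc⟩⟩
      refine range_subset_FF ?_ (hxc ⟨c, hc⟩)
      refine Subset.trans ?_ hBB'
      exact Subset.trans (subset_iUnion (fun c : C => ((Ec c).1 : Set Γ)) ⟨c, hc⟩)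
        subset_union_right
    have hcl2 : IsClosed ((Subtype.val : range (r t) → K) ⁻¹' (r t '' (D.F B'))) :=
      hcl.preimage continuous_subtype_val
    have h3 := closure_minimal hsub hcl2 (hC ⟨r t y, mem_range_self y⟩)
    obtain ⟨z, hz, hz2⟩ := h3
    exact ⟨z, hz, hz2⟩

theorem cofinal {t0 : Γ} {x : K} (hx : x ∈ range (r t0)) : ∃ B, D.Good B ∧ x ∈ D.F B := by
  classical
  obtain ⟨B0, hB0, -⟩ := D.exists_good (C := ∅) (empty_subset _) countable_empty
  have hst : ∀ p : {p : Γ × Set Γ // D.Good p.2}, ∃ p' : {p : Γ × Set Γ // D.Good p.2},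
      p.1.1 ≤ p'.1.1 ∧ p.1.2 ⊆ p'.1.2 ∧ D.F p'.1.2 ⊆ range (r p'.1.1) ∧
      ∀ y, ∃ z ∈ D.F p'.1.2, r p.1.1 z = r p.1.1 y := by
    rintro ⟨⟨t, B⟩, hB⟩
    obtain ⟨t', B', h1, h2, h3, h4, h5⟩ := D.step t hB
    exact ⟨⟨⟨t', B'⟩, h2⟩, h1, h3, h4, h5⟩
  choose nx hnx1 hnx2 hnx3 hnx4 using hst
  obtain ⟨p, hp0, hp1⟩ : ∃ p : ℕ → {p : Γ × Set Γ // D.Good p.2}, p 0 = ⟨⟨t0, B0⟩, hB0⟩ ∧
      ∀ n, p (n + 1) = nx (p n) :=
    ⟨fun n => Nat.rec ⟨⟨t0, B0⟩, hB0⟩ (fun _ E => nx E) n, rfl, fun _ => rfl⟩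
  let t : ℕ → Γ := fun n => (p n).1.1
  let B : ℕ → Set Γ := fun n => (p n).1.2
  have ht : Monotone t := monotone_nat_of_le_succ fun n => by
    show (p n).1.1 ≤ (p (n + 1)).1.1
    rw [hp1]; exact hnx1 _
  have hBm : Monotone B := monotone_nat_of_le_succ fun n => by
    show (p n).1.2 ⊆ (p (n + 1)).1.2
    rw [hp1]; exact hnx2 _
  have hBg : ∀ n, D.Good (B n) := fun n => (p n).2
  have h3 : ∀ n, D.F (B (n + 1)) ⊆ range (r (t (n + 1))) := fun n => by
    show D.F (p (n + 1)).1.2 ⊆ range (r (p (n + 1)).1.1)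
    rw [hp1]; exact hnx3 _
  have h4 : ∀ n y, ∃ z ∈ D.F (B (n + 1)), r (t n) z = r (t n) y := fun n y => by
    show ∃ z ∈ D.F (p (n + 1)).1.2, r (p n).1.1 z = r (p n).1.1 y
    rw [hp1]; exact hnx4 _ _
  obtain ⟨s, hs⟩ := D.hr.sup t ht
  have hle : ∀ n, t n ≤ s := fun n => hs.1 (mem_range_self n)
  refine ⟨⋃ n, B n, D.good_iUnion hBg hBm, ?_⟩
  choose z hz1 hz2 using fun n => h4 n x
  let U : Ultrafilter ℕ := Ultrafilter.of atTop
  have hU : (U : Filter ℕ) ≤ atTop := Ultrafilter.of_le atTop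
  obtain ⟨w, -, hw⟩ := isCompact_univ.ultrafilter_le_nhds (U.map z) (by simp)
  have hw' : Tendsto z U (𝓝 w) := hw
  have hwF : w ∈ D.F (⋃ n, B n) := by
    refine (D.isClosed_F _).mem_of_tendsto hw' (Eventually.of_forall fun n => ?_)
    exact D.F_mono (subset_iUnion B (n + 1)) (hz1 n)
  have hws : r s w = w := by
    rw [← mem_range_iff D.hr]
    refine (isClosed_range D.hr s).mem_of_tendsto hw' (Eventually.of_forall fun n => ?_)
    obtain ⟨v, hv⟩ := h3 n (hz1 n)
    rw [← hv]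
    exact ⟨r (t (n + 1)) v, (D.hr.comp _ _ (hle (n + 1))).2 v⟩
  have hxs : r s x = x := by
    rw [← mem_range_iff D.hr]
    obtain ⟨v, rfl⟩ := hx
    refine ⟨r t0 v, ?_⟩
    have h0 : t0 ≤ s := by
      have := hle 0
      simp only [t, hp0] at this
      exact this
    exact (D.hr.comp _ _ h0).2 v
  have hwx : w = x := by
    rw [← hws, ← hxs]
    refine eq_of_seq D.hr ht hs fun m => ?_
    have h5 : Tendsto (fun n => r (t m) (z n)) U (𝓝 (r (t m) w)) :=
      ((D.hr.continuous (t m)).tendsto w).comp hw'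
    have h6 : Tendsto (fun _ : ℕ => r (t m) x) U (𝓝 (r (t m) x)) := tendsto_const_nhds
    refine tendsto_nhds_unique_of_eventuallyEq h5 h6 ?_
    have : ∀ᶠ n in (U : Filter ℕ), m ≤ n := hU (eventually_ge_atTop m)
    filter_upwards [this] with n hn
    rw [← (D.hr.comp _ _ (ht hn)).1 (z n), hz2, (D.hr.comp _ _ (ht hn)).1]
  rw [← hwx]
  exact hwF

end Data

theorem main_aux (hr : IsRetractionalSkeleton r) :
    ∃ (F : Set (Set K)) (ρ : F → K → K),
      (∀ A ∈ F, IsCompact A) ∧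
      (∀ A : ℕ → F, Monotone A → ∃ B : F, (B : Set K) = closure (⋃ n, (A n : Set K)) ∧
        IsLUB (Set.range A) B) ∧
      (∀ A : F, Set.range (ρ A) = (A : Set K)) ∧
      IsRetractionalSkeleton ρ ∧ inducedSet ρ = inducedSet r := by
  classical
  obtain ⟨D⟩ := exists_data hr
  let F : Set (Set K) := {L | ∃ B, D.Good B ∧ D.F B = L}
  choose b hb1 hb2 using fun A : F => A.2
  let ρ : F → K → K := fun A => D.rho (b A)
  have hle : ∀ A A' : F, A ≤ A' → b A ⊆ b A' := by
    intro A A' h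
    refine D.subset_of_F_subset (hb1 A) (hb1 A') ?_
    rw [hb2, hb2]
    exact h
  have hcl : ∀ A : F, IsClosed (A : Set K) := fun A => by
    rw [← hb2 A]; exact D.isClosed_F _
  have hsup : ∀ A : ℕ → F, Monotone A → D.Good (⋃ n, b (A n)) ∧
      D.F (⋃ n, b (A n)) = closure (⋃ n, (A n : Set K)) := by
    intro A hA
    have hm : Monotone fun n => b (A n) := fun i j hij => hle _ _ (hA hij)
    refine ⟨D.good_iUnion (fun n => hb1 _) hm, ?_⟩
    have h1 : D.F (⋃ n, b (A n)) = closure (⋃ n, D.F (b (A n))) := FF_iUnion hm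
    rw [h1]
    simp only [hb2]
  have hlub : ∀ A : ℕ → F, Monotone A → ∀ B : F, (B : Set K) = closure (⋃ n, (A n : Set K)) →
      IsLUB (Set.range A) B := by
    intro A hA B hB
    constructor
    · rintro _ ⟨n, rfl⟩
      show (A n : Set K) ⊆ (B : Set K)
      rw [hB]
      exact (subset_iUnion (fun n => (A n : Set K)) n).trans subset_closure
    · intro C hC
      show (B : Set K) ⊆ (C : Set K)
      rw [hB]
      exact closure_minimal (iUnion_subset fun n => hC (mem_range_self n)) (hcl C)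
  have hi : ∀ A : ℕ → F, Monotone A → ∃ B : F, (B : Set K) = closure (⋃ n, (A n : Set K)) ∧
        IsLUB (Set.range A) B := by
    intro A hA
    obtain ⟨h1, h2⟩ := hsup A hA
    exact ⟨⟨_, _, h1, h2⟩, rfl, hlub A hA _ rfl⟩
  refine ⟨F, ρ, fun A hA => (hcl ⟨A, hA⟩).isCompact, hi, fun A => ?_, ?_, ?_⟩
  · show range (D.rho (b A)) = A
    rw [D.range_rho, hb2]
  · refine ⟨?_, ?_, ?_, ?_, ?_, ?_, ?_, ?_, ?_⟩
    · obtain ⟨B0, hB0, -⟩ := D.exists_good (C := ∅) (empty_subset _) countable_empty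
      exact ⟨⟨_, B0, hB0, rfl⟩⟩
    · intro A A'
      obtain ⟨B, hB, hBB⟩ := D.exists_good (C := b A ∪ b A') (union_subset (hb1 A).1 (hb1 A').1)
        ((hb1 A).2.1.union (hb1 A').2.1)
      refine ⟨⟨_, B, hB, rfl⟩, ?_, ?_⟩
      · show (A : Set K) ⊆ D.F B
        rw [← hb2 A]
        exact D.F_mono (subset_union_left.trans hBB)
      · show (A' : Set K) ⊆ D.F B
        rw [← hb2 A']
        exact D.F_mono (subset_union_right.trans hBB)
    · intro A hA
      obtain ⟨B, -, hB⟩ := hi A hA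
      exact ⟨B, hB⟩
    · exact fun A => D.rho_cont _
    · exact fun A x => (D.rho_lim (b A)).comp_right D.hr D.hq (D.rho_lim (b A)) (Subset.refl _) x
    · intro A
      obtain ⟨t, ht⟩ := D.exists_eq (hb1 A).2.1
      show TopologicalSpace.MetrizableSpace (range (D.rho (b A)))
      rw [ht]
      exact D.hr.metrizable t
    · intro A A' h
      exact ⟨(D.rho_lim (b A)).comp_right D.hr D.hq (D.rho_lim (b A')) (hle _ _ h),
        (D.rho_lim (b A)).comp_left D.hr D.hq (D.rho_lim (b A')) (D.rho_cont _) (hle _ _ h)⟩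
    · intro A hA B hB x
      obtain ⟨h1, h2⟩ := hsup A hA
      have h3 : B = ⟨_, _, h1, rfl⟩ := hB.unique (hlub A hA ⟨_, _, h1, rfl⟩ h2)
      have h4 : b B = ⋃ n, b (A n) := by
        have h5 : D.F (b B) = D.F (⋃ n, b (A n)) := by
          rw [hb2 B, h3]
        exact Subset.antisymm (D.subset_of_F_subset (hb1 B) h1 h5.subset)
          (D.subset_of_F_subset h1 (hb1 B) h5.symm.subset)
      show Tendsto (fun n => D.rho (b (A n)) x) atTop (𝓝 (D.rho (b B) x))
      rw [h4]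
      exact IsLim.tendsto_seq (fun i j hij => hle _ _ (hA hij)) (fun n => D.rho_lim _)
        (D.rho_lim _) x
    · intro x
      rw [Uniform.tendsto_nhds_right]
      intro V hV
      rw [Filter.mem_map]
      obtain ⟨W, ⟨hW, hWc⟩, hWV⟩ := uniformity_hasBasis_closed.mem_iff.1 hV
      replace hWV : W ⊆ V := hWV
      obtain ⟨E, hEI, hE⟩ := D.rho_lim D.I W hW
      have hxI : D.rho D.I x = x :=
        (D.rho_lim D.I).eq_self D.hr D.hq (D.rho_cont _) (by
          show x ∈ D.F D.I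
          rw [D.F_I]; trivial)
      obtain ⟨B0, hB0, hEB⟩ := D.exists_good hEI (Finset.finite_toSet E).countable
      have h1 : ∀ᶠ A : F in atTop, (⟨_, B0, hB0, rfl⟩ : F) ≤ A := eventually_ge_atTop _
      filter_upwards [h1] with A hA
      refine hWV ?_
      show (x, D.rho (b A) x) ∈ W
      have hbA : B0 ⊆ b A := by
        refine D.subset_of_F_subset hB0 (hb1 A) ?_
        rw [hb2 A]
        exact hA
      refine hWc.mem_of_tendsto (tendsto_const_nhds.prodMk_nhds ((D.rho_lim (b A)).tendsto x)) ?_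
      have h2 : ∀ᶠ E'' : Fin' (b A) in atTop, (⟨E, hEB.trans hbA⟩ : Fin' (b A)) ≤ E'' :=
        eventually_ge_atTop _
      filter_upwards [h2] with E'' hE''
      have h3 := hE E''.1 (E''.2.trans (hb1 A).1) hE'' x
      rwa [hxI] at h3
  · apply Subset.antisymm
    · refine iUnion_subset fun A => ?_
      obtain ⟨t, ht⟩ := D.exists_eq (hb1 A).2.1
      show range (D.rho (b A)) ⊆ _
      rw [ht]
      exact subset_iUnion (fun s => range (r s)) t
    · refine iUnion_subset fun t x hx => ?_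
      obtain ⟨B, hB, hxB⟩ := D.cofinal hx
      refine mem_iUnion.2 ⟨⟨_, B, hB, rfl⟩, ?_⟩
      show x ∈ range (D.rho (b _))
      rw [D.range_rho, hb2]
      exact hxB

end main

/-- Every set induced by a retractional skeleton on a compact Hausdorff space is induced by a
retractional skeleton indexed by a family of compact sets, ordered by inclusion, which are the
ranges of the retractions, and with suprema of increasing sequences given by closures of unions. -/
theorem result {K : Type u} [TopologicalSpace K] [CompactSpace K] [T2Space K] (D : Set K)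
    (hD : ∃ (Γ : Type v) (_ : PartialOrder Γ) (r : Γ → K → K),
      IsRetractionalSkeleton r ∧ inducedSet r = D) :
    ∃ (F : Set (Set K)) (ρ : F → K → K),
      (∀ A ∈ F, IsCompact A) ∧
      (∀ A : ℕ → F, Monotone A → ∃ B : F, (B : Set K) = closure (⋃ n, (A n : Set K)) ∧
        IsLUB (Set.range A) B) ∧
      (∀ A : F, Set.range (ρ A) = (A : Set K)) ∧
      IsRetractionalSkeleton ρ ∧ inducedSet ρ = D := by
  obtain ⟨Γ, _, r, hr, rfl⟩ := hD
  let : UniformSpace K := uniformSpaceOfCompactR1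
  exact main_aux hr

end Pool.Agent.Results.MP_fcea8d_gt.RangeIndexed
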